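import Pool.Agent.SymSub.Main
import Pool.Agent.SymBlk.Free

/-!
# The cost of symmetry: final form
-/

set_option autoImplicit false

namespace Pool.Agent.SymSub

open Pool.Agent Pool.Agent.SymCirc Finset

theorem Fin_A (m : ℕ) (hm : 2 ≤ m) : ∃ K : ℕ,
    ∀ (n k T : ℕ) (F : ℕ → Prop), 1 ≤ n → 2 ≤ k → 1 ≤ T →
    (Regular m n k T F → ∃ (G : Type) (_ : Fintype G) (C : Circuit n (Fin n) G) (g₀ : G),
      C.label = Sum.inl ∧ C.Modular m T ∧ (∀ g, C.level g < 5) ∧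
      (∀ ρ, ∃ σ τ, C.IsAut ρ σ τ ∧ τ g₀ = g₀) ∧
      Fintype.card G ≤ (n + k).choose k ^ K ∧ C.Computes g₀ F) ∧
    (∀ A : Finset (Fin n), 1 ≤ A.card →
      (∀ v, v + A.card ≤ n → Regular m A.card k T fun w => F (w + v)) →
      ∀ (d : ℕ) (ι G : Type) [Fintype ι] [Fintype G] (C : Circuit n ι G) (g₀ : G),
      C.Modular m T → C.Computes g₀ F → (∀ g, C.level g < d) →
      ∃ (ι' G' : Type) (_ : Fintype ι') (_ : Fintype G') (C' : Circuit n ι' G') (g₀' : G'),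
        C'.Modular m T ∧ (∀ g, C'.level g < max d 5 + 2) ∧
        Fintype.card G' ≤ Fintype.card G * (A.card + k).choose k ^ K ∧ C'.Computes g₀' F ∧
        ∀ ρ : Equiv.Perm (Fin n), (∀ i, i ∉ A → ρ i = i) →
          ∃ σ τ, C'.IsAut ρ σ τ ∧ τ g₀' = g₀') ∧
    (∀ (t b j : ℕ) (φ : Fin n → Fin t ⊕ Bool), Uniform φ b j →
      ¬ Regular m t k T (fun w => F (b * w + j)) → K * k ≤ t →
      ∀ (ι G : Type) [Fintype ι] [Fintype G] (C : Circuit n ι G) (g₀ : G),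
      C.Modular m T → C.Computes g₀ F →
      t.choose k * Nat.card {σ : Equiv.Perm (Fin t) // C.Lifts φ σ} ≤
        Fintype.card G * t.factorial) ∧
    (∀ (a : ℕ) (F' : ℕ → Prop), a ≤ k ^ m.primeFactors.card → Regular m a k T F') ∧
    ∀ θ, (∀ w, F w ↔ θ ≤ w) → ∀ t b j : ℕ, 1 ≤ b → b * t + 4 * j ≤ 4 * θ →
      4 * (θ + b) ≤ 3 * (b * t) + 4 * j + 4 → K * (k ^ m.primeFactors.card + T) ≤ t →
      ¬ Regular m t k T fun w => F (b * w + j) := by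
  obtain ⟨K₁, h₁⟩ := Main_A m hm
  obtain ⟨K₂, h₂⟩ := Pool.Agent.SymBlk.thm_FreeR Pool.Agent.SymC.thm_Up m hm
  refine ⟨K₁ + K₂, fun n k T F hn hk hT => ⟨fun h => ?_, ?_, ?_, ?_, ?_⟩⟩
  · obtain ⟨G, i, C, g₀, e1, e2, e3, e4, e5, e6⟩ := (h₁ n k T F hn hk hT).1 h
    refine ⟨G, i, C, g₀, e1, e2, e3, e4, e5.trans ?_, e6⟩
    exact Nat.pow_le_pow_right (Nat.choose_pos (Nat.le_add_left k n)) (Nat.le_add_right _ _)
  · intro A hA1 hA d ι G _ _ C g₀ hmod hcomp hd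
    obtain ⟨ι', G', i1, i2, C', g₀', e1, e2, e3, e4, e5⟩ :=
      h₂ n k T d F A hk hT hA1 hA ι G C g₀ hmod hcomp hd
    refine ⟨ι', G', i1, i2, C', g₀', e1, e2, e3.trans ?_, e4, e5⟩
    exact Nat.mul_le_mul_left _ (Nat.pow_le_pow_right
      (Nat.choose_pos (Nat.le_add_left k A.card)) (Nat.le_add_left _ _))
  · intro t b j φ hφ hreg hKt
    exact (h₁ n k T F hn hk hT).2.1 t b j φ hφ hreg
      (le_trans (Nat.mul_le_mul_right k (Nat.le_add_right _ _)) hKt)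
  · intro a F' ha w _ hw2
    have h4 : k ^ m.primeFactors.card < period m k := Pool.Agent.Helper18.pow_lt_period hm
    omega
  · intro θ hθ t b j hb e1 e2 e3
    exact ((h₁ n k T F hn hk hT).2.2 θ hθ).2 t b j hb e1 e2
      (le_trans (Nat.mul_le_mul_right _ (Nat.le_add_right _ _)) e3)

end Pool.Agent.SymSub
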