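import Pool.Agent.SymSub.Defs
import Pool.Agent.SymSub.Fin

/-!
# Blocks of interchangeable variables: free and rigid
-/

set_option autoImplicit false

namespace Pool.Agent.SymCirc

/-- `F` is free on `A`: every circuit of depth `d` with `s` gates that computes `F` can be replaced
by one of depth at most `max d 5 + 2` with at most `s * (a + k).choose k ^ K` gates, for which all
`a!` permutations of the set `A` of `a` variables are symmetries. -/
def FreeOn {n : ℕ} (m T k K : ℕ) (F : ℕ → Prop) (A : Finset (Fin n)) : Prop :=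
  ∀ (d : ℕ) (ι G : Type) [Fintype ι] [Fintype G] (C : Circuit n ι G) (g₀ : G),
    C.Modular m T → C.Computes g₀ F → (∀ g, C.level g < d) →
    ∃ (ι' G' : Type) (_ : Fintype ι') (_ : Fintype G') (C' : Circuit n ι' G') (g₀' : G'),
      C'.Modular m T ∧ (∀ g, C'.level g < max d 5 + 2) ∧
      Fintype.card G' ≤ Fintype.card G * (A.card + k).choose k ^ K ∧ C'.Computes g₀' F ∧
      ∀ ρ : Equiv.Perm (Fin n), (∀ i, i ∉ A → ρ i = i) →
        ∃ σ τ, C'.IsAut ρ σ τ ∧ τ g₀' = g₀'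

/-- `F` is rigid on `A`: for every circuit with `s` gates that computes `F`, of arbitrary depth, at
most `s * a! / a.choose k` of the `a!` permutations of the set `A` of `a` variables are
symmetries. -/
def RigidOn {n : ℕ} (m T k : ℕ) (F : ℕ → Prop) (A : Finset (Fin n)) : Prop :=
  ∀ (ι G : Type) [Fintype ι] [Fintype G] (C : Circuit n ι G) (g₀ : G),
    C.Modular m T → C.Computes g₀ F →
    A.card.choose k *
        Nat.card {ρ : Equiv.Perm (Fin n) // (∀ i, i ∉ A → ρ i = i) ∧ C.IsSymmetry ρ} ≤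
      Fintype.card G * A.card.factorial

end Pool.Agent.SymCirc

namespace Pool.Agent.SymSub

open Pool.Agent.SymCirc

/-- the substitution: the variables in `A` stay, `v` of the others become true, the rest false -/
theorem Blk_phi {n : ℕ} (A : Finset (Fin n)) (v : ℕ) (hv : v + A.card ≤ n) :
    ∃ φ : Fin n → Fin A.card ⊕ Bool, Uniform φ 1 v ∧
      ∃ e : {i // i ∈ A} ≃ Fin A.card, (∀ i (hi : i ∈ A), φ i = Sum.inl (e ⟨i, hi⟩)) ∧
        ∀ i, i ∉ A → ∃ c, φ i = Sum.inr c := by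
  classical
  have hc : v ≤ (Finset.univ \ A).card := by
    rw [Finset.card_sdiff_of_subset (Finset.subset_univ A), Finset.card_univ, Fintype.card_fin]
    omega
  obtain ⟨V, hV, hVc⟩ := Finset.exists_subset_card_eq hc
  have e : {i // i ∈ A} ≃ Fin A.card := A.equivFin
  obtain ⟨φ, h1, h2⟩ : ∃ φ : Fin n → Fin A.card ⊕ Bool,
      (∀ i (hi : i ∈ A), φ i = Sum.inl (e ⟨i, hi⟩)) ∧
        ∀ i, i ∉ A → φ i = Sum.inr (decide (i ∈ V)) :=
    ⟨fun i => if h : i ∈ A then Sum.inl (e ⟨i, h⟩) else Sum.inr (decide (i ∈ V)),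
      fun i hi => dif_pos hi, fun i hi => dif_neg hi⟩
  refine ⟨φ, ⟨fun j => ?_, ?_⟩, e, h1, fun i hi => ⟨_, h2 i hi⟩⟩
  · rw [Finset.card_eq_one]
    refine ⟨(e.symm j).1, ?_⟩
    ext i
    rw [Finset.mem_filter, Finset.mem_singleton]
    constructor
    · rintro ⟨-, h⟩
      by_cases hi : i ∈ A
      · rw [h1 i hi] at h
        have h3 := Sum.inl.inj h
        rw [← h3, Equiv.symm_apply_apply]
      · rw [h2 i hi] at h
        exact absurd h (by simp)
    · rintro rfl
      refine ⟨Finset.mem_univ _, ?_⟩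
      rw [h1 _ (e.symm j).2]
      simp
  · rw [← hVc]
    congr 1
    ext i
    rw [Finset.mem_filter]
    constructor
    · rintro ⟨-, h⟩
      by_cases hi : i ∈ A
      · rw [h1 i hi] at h
        exact absurd h (by simp)
      · rw [h2 i hi] at h
        have h3 := Sum.inr.inj h
        exact of_decide_eq_true h3
    · intro h
      refine ⟨Finset.mem_univ _, ?_⟩
      have h3 := hV h
      rw [Finset.mem_sdiff] at h3
      rw [h2 i h3.2, decide_eq_true h]

/-- the symmetries which fix all variables outside of `A` are at most as many as the permutations of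
the new variables which come from symmetries -/
theorem Blk_card {n : ℕ} (A : Finset (Fin n)) {ι G : Type} (C : Circuit n ι G)
    (φ : Fin n → Fin A.card ⊕ Bool) (e : {i // i ∈ A} ≃ Fin A.card)
    (h1 : ∀ i (hi : i ∈ A), φ i = Sum.inl (e ⟨i, hi⟩)) (h2 : ∀ i, i ∉ A → ∃ c, φ i = Sum.inr c) :
    Nat.card {ρ : Equiv.Perm (Fin n) // (∀ i, i ∉ A → ρ i = i) ∧ C.IsSymmetry ρ} ≤
      Nat.card {σ : Equiv.Perm (Fin A.card) // C.Lifts φ σ} := by
  classical
  have hA : ∀ ρ : Equiv.Perm (Fin n), (∀ i, i ∉ A → ρ i = i) → ∀ i, i ∈ A ↔ ρ i ∈ A := by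
    intro ρ hρ i
    constructor
    · intro hi
      by_contra h
      have h3 := hρ _ h
      exact h (by rw [ρ.injective h3]; exact hi)
    · intro hi
      by_contra h
      rw [hρ i h] at hi
      exact h hi
  refine Nat.card_le_card_of_injective (fun ρ => ⟨(e.symm.trans
    (ρ.1.subtypePerm (p := fun i => i ∈ A) (fun i => (hA ρ.1 ρ.2.1 i).symm))).trans e,
      ρ.1, ρ.2.2, fun v => ?_⟩) ?_
  · by_cases hv : v ∈ A
    · rw [h1 v hv, h1 (ρ.1 v) ((hA ρ.1 ρ.2.1 v).1 hv)]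
      simp only [Sum.map_inl, Equiv.trans_apply, Equiv.symm_apply_apply]
      rfl
    · obtain ⟨c, hc⟩ := h2 v hv
      rw [ρ.2.1 v hv, hc]
      rfl
  · intro ρ ρ' h
    have h3 := congrArg Subtype.val h
    apply Subtype.ext
    apply Equiv.ext
    intro i
    by_cases hi : i ∈ A
    · have h4 := congrFun (congrArg (fun f : Equiv.Perm (Fin A.card) => (f : Fin A.card → Fin A.card))
        h3) (e ⟨i, hi⟩)
      simp only [Equiv.trans_apply, Equiv.symm_apply_apply] at h4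
      exact congrArg Subtype.val (e.injective h4)
    · rw [ρ.2.1 i hi, ρ'.2.1 i hi]

theorem Blk_A (m : ℕ) (hm : 2 ≤ m) : ∃ K : ℕ, ∀ n k T : ℕ, 1 ≤ n → 2 ≤ k → 1 ≤ T →
    (∀ A : Finset (Fin n), 1 ≤ A.card →
      (A.card ≤ k ^ m.primeFactors.card → ∀ F, FreeOn m T k K F A) ∧
      (K * (k ^ m.primeFactors.card + T) ≤ A.card → RigidOn m T k (fun w => n ≤ 2 * w) A)) ∧
    ∀ F : ℕ → Prop,
      (∀ A : Finset (Fin n), 1 ≤ A.card →
        ((∀ v, v + A.card ≤ n → Regular m A.card k T fun w => F (w + v)) →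
          FreeOn m T k K F A) ∧
        ((∃ v, v + A.card ≤ n ∧ ¬ Regular m A.card k T fun w => F (w + v)) →
          K * k ≤ A.card → RigidOn m T k F A)) ∧
      (Regular m n k T F → ∃ (G : Type) (_ : Fintype G) (C : Circuit n (Fin n) G) (g₀ : G),
        C.label = Sum.inl ∧ C.Modular m T ∧ (∀ g, C.level g < 5) ∧
        (∀ ρ, ∃ σ τ, C.IsAut ρ σ τ ∧ τ g₀ = g₀) ∧
        Fintype.card G ≤ (n + k).choose k ^ K ∧ C.Computes g₀ F) ∧
      (∀ (t b j : ℕ) (φ : Fin n → Fin t ⊕ Bool), Uniform φ b j →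
        ¬ Regular m t k T (fun w => F (b * w + j)) → K * k ≤ t →
        ∀ (ι G : Type) [Fintype ι] [Fintype G] (C : Circuit n ι G) (g₀ : G),
        C.Modular m T → C.Computes g₀ F →
        t.choose k * Nat.card {σ : Equiv.Perm (Fin t) // C.Lifts φ σ} ≤
          Fintype.card G * t.factorial) ∧
      ∀ θ, (∀ w, F w ↔ θ ≤ w) → ∀ t b j : ℕ, 1 ≤ b → b * t + 4 * j ≤ 4 * θ →
        4 * (θ + b) ≤ 3 * (b * t) + 4 * j + 4 → K * (k ^ m.primeFactors.card + T) ≤ t →
        ¬ Regular m t k T fun w => F (b * w + j) := by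
  obtain ⟨K, hK⟩ := Fin_A m hm
  have hpow : ∀ a k : ℕ, (a + k).choose k ^ K ≤ (a + k).choose k ^ (K + 1) := fun a k =>
    Nat.pow_le_pow_right (Nat.choose_pos (Nat.le_add_left k a)) (Nat.le_succ K)
  have hKk : ∀ x y : ℕ, (K + 1) * x ≤ y → K * x ≤ y := fun x y h =>
    le_trans (Nat.mul_le_mul_right x (Nat.le_succ K)) h
  have free : ∀ (n k T : ℕ) (F : ℕ → Prop), 1 ≤ n → 2 ≤ k → 1 ≤ T → ∀ A : Finset (Fin n),
      1 ≤ A.card → (∀ v, v + A.card ≤ n → Regular m A.card k T fun w => F (w + v)) →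
      FreeOn m T k (K + 1) F A := by
    intro n k T F hn hk hT A hA hreg d ι G _ _ C g₀ hmod hcomp hd
    obtain ⟨ι', G', i1, i2, C', g₀', e1, e2, e3, e4, e5⟩ :=
      (hK n k T F hn hk hT).2.1 A hA hreg d ι G C g₀ hmod hcomp hd
    exact ⟨ι', G', i1, i2, C', g₀', e1, e2, e3.trans (Nat.mul_le_mul_left _ (hpow _ _)), e4, e5⟩
  have rigid : ∀ (n k T : ℕ) (F : ℕ → Prop), 1 ≤ n → 2 ≤ k → 1 ≤ T → ∀ (A : Finset (Fin n))
      (v : ℕ), v + A.card ≤ n → (¬ Regular m A.card k T fun w => F (w + v)) →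
      K * k ≤ A.card → RigidOn m T k F A := by
    intro n k T F hn hk hT A v hv hreg hKA ι G _ _ C g₀ hmod hcomp
    obtain ⟨φ, hφ, e, h1, h2⟩ := Blk_phi A v hv
    have h3 := (hK n k T F hn hk hT).2.2.1 A.card 1 v φ hφ (by simpa only [one_mul] using hreg) hKA
      ι G C g₀ hmod hcomp
    exact (Nat.mul_le_mul_left _ (Blk_card A C φ e h1 h2)).trans h3
  refine ⟨K + 1, fun n k T hn hk hT => ⟨fun A hA => ⟨fun hAk F => ?_, fun hAk => ?_⟩,
    fun F => ⟨fun A hA => ⟨fun hreg => ?_, ?_⟩, ?_, ?_, ?_⟩⟩⟩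
  · exact free n k T F hn hk hT A hA fun v hv =>
      (hK n k T F hn hk hT).2.2.2.1 A.card _ hAk
  · have hAn : A.card ≤ n := by
      have := Finset.card_le_univ A
      rwa [Fintype.card_fin] at this
    have hr : 1 ≤ m.primeFactors.card := by
      rw [Nat.one_le_iff_ne_zero, Ne, Finset.card_eq_zero, Nat.primeFactors_eq_empty]
      omega
    have hkr : k ≤ k ^ m.primeFactors.card := by
      calc k = k ^ 1 := (pow_one k).symm
        _ ≤ k ^ m.primeFactors.card := Nat.pow_le_pow_right (by omega) hr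
    have hA3 : 3 ≤ A.card := by
      have h4 : 1 * (2 + 1) ≤ (K + 1) * (k ^ m.primeFactors.card + T) :=
        Nat.mul_le_mul (Nat.le_add_left 1 K) (by omega)
      omega
    have hKA : K * k ≤ A.card := by
      refine hKk k A.card (le_trans (Nat.mul_le_mul_left _ ?_) hAk)
      omega
    have hθ : ∀ w, n ≤ 2 * w ↔ (n + 1) / 2 ≤ w := fun w => by omega
    have h5 := (hK n k T (fun w => n ≤ 2 * w) hn hk hT).2.2.2.2 ((n + 1) / 2) hθ A.card 1
      ((n + 1) / 2 - (A.card + 1) / 2) le_rfl (by omega) (by omega) (hKk _ _ hAk)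
    refine rigid n k T _ hn hk hT A ((n + 1) / 2 - (A.card + 1) / 2) (by omega) ?_ hKA
    simpa only [one_mul] using h5
  · exact free n k T F hn hk hT A hA hreg
  · rintro ⟨v, hv, hreg⟩ hKA
    exact rigid n k T F hn hk hT A v hv hreg (hKk _ _ hKA)
  · intro h
    obtain ⟨G, i, C, g₀, e1, e2, e3, e4, e5, e6⟩ := (hK n k T F hn hk hT).1 h
    exact ⟨G, i, C, g₀, e1, e2, e3, e4, e5.trans (hpow _ _), e6⟩
  · intro t b j φ hφ hreg hKt
    exact (hK n k T F hn hk hT).2.2.1 t b j φ hφ hreg (hKk _ _ hKt)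
  · intro θ hθ t b j hb e1 e2 e3
    exact (hK n k T F hn hk hT).2.2.2.2 θ hθ t b j hb e1 e2 (hKk _ _ e3)

end Pool.Agent.SymSub
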