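import Pool.Agent.SymCirc.Defs

/-!
# Substitutions that identify variables or make them constant, and the symmetries that respect them
-/

set_option autoImplicit false

namespace Pool.Agent.SymCirc

/-- The substitution `φ` of new variables `0, …, t - 1` and constants for the variables
`0, …, n - 1` puts every new variable at exactly `b` places, and true at exactly `j` places. -/
def Uniform {n t : ℕ} (φ : Fin n → Fin t ⊕ Bool) (b j : ℕ) : Prop :=
  (∀ i, (Finset.univ.filter fun v => φ v = Sum.inl i).card = b) ∧
    (Finset.univ.filter fun v => φ v = Sum.inr true).card = j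

/-- The permutation `σ` of the new variables comes from a symmetry of the circuit. -/
def Circuit.Lifts {n t : ℕ} {ι G : Type} (C : Circuit n ι G) (φ : Fin n → Fin t ⊕ Bool)
    (σ : Equiv.Perm (Fin t)) : Prop :=
  ∃ ρ : Equiv.Perm (Fin n), C.IsSymmetry ρ ∧ ∀ v, φ (ρ v) = Sum.map σ id (φ v)

end Pool.Agent.SymCirc
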