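import Pool.Agent.SymSub.Top
import Pool.Agent.SymCirc.FinA
import Pool.Agent.SymCirc.FinB
import Pool.Agent.SymCirc.Nmb
import Pool.Agent.SymC.Up

/-!
# Symmetric circuits: the theorems for the circuits obtained by a substitution
-/

set_option autoImplicit false

namespace Pool.Agent.SymSub

open Pool.Agent Pool.Agent.SymCirc Finset

theorem Main_A (m : ℕ) (hm : 2 ≤ m) : ∃ K : ℕ,
    ∀ (n k T : ℕ) (F : ℕ → Prop), 1 ≤ n → 2 ≤ k → 1 ≤ T →
    (Regular m n k T F → ∃ (G : Type) (_ : Fintype G) (C : Circuit n (Fin n) G) (g₀ : G),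
      C.label = Sum.inl ∧ C.Modular m T ∧ (∀ g, C.level g < 5) ∧
      (∀ ρ, ∃ σ τ, C.IsAut ρ σ τ ∧ τ g₀ = g₀) ∧
      Fintype.card G ≤ (n + k).choose k ^ K ∧ C.Computes g₀ F) ∧
    (∀ (t b j : ℕ) (φ : Fin n → Fin t ⊕ Bool), Uniform φ b j →
      ¬ Regular m t k T (fun w => F (b * w + j)) → K * k ≤ t →
      ∀ (ι G : Type) [Fintype ι] [Fintype G] (C : Circuit n ι G) (g₀ : G),
      C.Modular m T → C.Computes g₀ F →
      t.choose k * Nat.card {σ : Equiv.Perm (Fin t) // C.Lifts φ σ} ≤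
        Fintype.card G * t.factorial) ∧
    (∀ θ, (∀ w, F w ↔ θ ≤ w) →
      (n ≤ k ^ m.primeFactors.card → Regular m n k T F) ∧
      ∀ t b j : ℕ, 1 ≤ b → b * t + 4 * j ≤ 4 * θ → 4 * (θ + b) ≤ 3 * (b * t) + 4 * j + 4 →
        K * (k ^ m.primeFactors.card + T) ≤ t → ¬ Regular m t k T fun w => F (b * w + j)) := by
  obtain ⟨K, hK⟩ := FinA_main Pool.Agent.SymC.thm_Up m hm
  refine ⟨K + 1, fun n k T F hn hk hT => ⟨fun h => ?_, ?_, ?_⟩⟩
  · obtain ⟨G, i, C, g₀, h1, h2, h3, h4, h5, h6⟩ := (hK n k T F hn hk hT).1 h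
    refine ⟨G, i, C, g₀, h1, h2, h3, h4, h5.trans ?_, h6⟩
    exact Nat.pow_le_pow_right (Nat.choose_pos (Nat.le_add_left k n)) (Nat.le_succ K)
  · intro t b j φ hφ hreg hKt ι G _ _ C g₀ hmod hcomp
    have hkt : k ≤ t := le_trans (Nat.le_mul_of_pos_left k (Nat.succ_pos K)) hKt
    have ht : 1 ≤ t := by omega
    have hKt' : K * k ≤ t := le_trans (Nat.mul_le_mul_right k (Nat.le_succ K)) hKt
    have h1 := (hK t k T (fun w => F (b * w + j)) ht hk hT).2.1 hreg hKt' ι G (subst C φ) g₀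
      (Sub_modular C φ m T hmod) (Sub_computes C φ b j hφ g₀ F hcomp)
    exact (Nat.mul_le_mul_left _ (Sub_card C φ)).trans h1
  · intro θ hθ
    refine ⟨((hK n k T F hn hk hT).2.2 θ hθ).1, fun t b j hb h1 h2 h3 => ?_⟩
    have hTt : K * (k ^ m.primeFactors.card + T) ≤ t :=
      le_trans (Nat.mul_le_mul_right _ (Nat.le_succ K)) h3
    have ht : 1 ≤ t := by
      have : 1 * 1 ≤ (K + 1) * (k ^ m.primeFactors.card + T) :=
        Nat.mul_le_mul (Nat.le_add_left 1 K) (by omega)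
      omega
    -- the threshold for the new variables
    set θ' := (θ - j + (b - 1)) / b with hθ'
    have hjθ : j < θ := by
      have : 1 * 1 ≤ b * t := Nat.mul_le_mul hb ht
      omega
    have hlow : ∀ w, F (b * w + j) ↔ θ' ≤ w := by
      intro w
      rw [hθ, hθ', Nat.div_le_iff_le_mul_add_pred (by omega)]
      constructor <;> intro h <;> omega
    refine ((hK t k T (fun w => F (b * w + j)) ht hk hT).2.2 θ' hlow).2 ?_ ?_ hTt
    · -- `t ≤ 4 θ'`
      have h4 : θ - j ≤ b * θ' := by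
        have := Nat.lt_mul_div_succ (θ - j + (b - 1)) (show 0 < b by omega)
        rw [← hθ'] at this
        have h5 : b * (θ' + 1) = b * θ' + b := by ring
        omega
      have h6 : b * t ≤ b * (4 * θ') := by
        have : b * (4 * θ') = 4 * (b * θ') := by ring
        omega
      exact Nat.le_of_mul_le_mul_left h6 (by omega)
    · have h4 : b * θ' ≤ θ - j + (b - 1) := Nat.mul_div_le _ _
      have h6 : b * (4 * θ') ≤ b * (3 * t) := by
        have e1 : b * (4 * θ') = 4 * (b * θ') := by ring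
        have e2 : b * (3 * t) = 3 * (b * t) := by ring
        omega
      exact Nat.le_of_mul_le_mul_left h6 (by omega)

theorem Main_B (p m d : ℕ) (hp : p.Prime) (hm : 2 ≤ m) :
    ∃ K : ℕ, ∀ (n t b j T S : ℕ) (ι G : Type) [Fintype ι] [Fintype G]
      (φ : Fin n → Fin t ⊕ Bool) (L : Circuit n ι G) (U : RS.Circuit (Fin n ⊕ G) S),
      Uniform φ b j → (∀ w ≤ t, n ≤ 2 * (b * w + j) ↔ t ≤ 2 * w) →
      K * T ≤ t → L.Modular m T → U.level U.out + 1 ≤ d →
      (∀ x : Fin n → Bool, ∃ v, L.IsRun x v ∧ (U.Accepts p (Sum.elim x v) ↔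
        n ≤ 2 * (univ.filter fun i => x i = true).card)) →
      (t : ℝ) ≤ (K * Real.log (S + Fintype.card G * t.factorial /
        Nat.card {σ : Equiv.Perm (Fin t) // L.Lifts φ σ} + t)) ^ K := by
  obtain ⟨K, hK⟩ := FinB_main thm_Nmb p m d hp hm
  refine ⟨K, fun n t b j T S ι G _ _ φ L U hφ hmaj hT hmod hd h => ?_⟩
  classical
  have h1 := hK t T S ι G (subst L φ) (top p U φ) hT (Sub_modular L φ m T hmod) hd ?_
  · refine h1.trans ?_
    have hN : 0 < Nat.card {σ : Equiv.Perm (Fin t) // L.Lifts φ σ} := by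
      have : Nonempty {σ : Equiv.Perm (Fin t) // L.Lifts φ σ} :=
        ⟨⟨1, 1, ⟨1, 1, isAut_one⟩, fun v => by cases h : φ v <;> simp [h]⟩⟩
      exact Nat.card_pos
    have hle : ((Nat.card {σ : Equiv.Perm (Fin t) // L.Lifts φ σ} : ℕ) : ℝ) ≤
        Nat.card {σ : Equiv.Perm (Fin t) // (subst L φ).IsSymmetry σ} := by
      exact_mod_cast Sub_card L φ
    have hN' : (0 : ℝ) < Nat.card {σ : Equiv.Perm (Fin t) // L.Lifts φ σ} := by
      exact_mod_cast hN
    have hdiv : (Fintype.card G * t.factorial : ℝ) /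
        Nat.card {σ : Equiv.Perm (Fin t) // (subst L φ).IsSymmetry σ} ≤
        Fintype.card G * t.factorial /
          Nat.card {σ : Equiv.Perm (Fin t) // L.Lifts φ σ} :=
      div_le_div_of_nonneg_left (by positivity) hN' hle
    have hS : (1 : ℝ) ≤ S := by exact_mod_cast Fin.pos U.out
    have hA : (0 : ℝ) ≤ (Fintype.card G * t.factorial : ℝ) /
        Nat.card {σ : Equiv.Perm (Fin t) // (subst L φ).IsSymmetry σ} := by positivity
    have ht : (0 : ℝ) ≤ t := Nat.cast_nonneg t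
    refine pow_le_pow_left₀ ?_ (mul_le_mul_of_nonneg_left ?_ (Nat.cast_nonneg K)) K
    · exact mul_nonneg (Nat.cast_nonneg K) (Real.log_nonneg (by linarith))
    · exact Real.log_le_log (by linarith) (by linarith)
  · intro x
    obtain ⟨v, h2, h3⟩ := h (pull φ x)
    refine ⟨v, (Sub_run L φ x v).2 h2, ?_⟩
    rw [Top_accepts, h3, Sub_ones φ b j hφ x]
    refine hmaj _ ?_
    exact (card_le_univ _).trans_eq (Fintype.card_fin t)

end Pool.Agent.SymSub
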