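import Pool.Agent.SymSub.Defs

/-!
# The circuit obtained by a substitution
-/

set_option autoImplicit false

namespace Pool.Agent.SymSub

open Pool.Agent.SymCirc Finset

variable {n t : ℕ} {ι G : Type}

/-- The circuit after the substitution. -/
def subst (C : Circuit n ι G) (φ : Fin n → Fin t ⊕ Bool) : Circuit t ι G where
  label i := Sum.elim φ Sum.inr (C.label i)
  wires := C.wires
  acc := C.acc
  level := C.level
  level_lt := C.level_lt

/-- The input before the substitution. -/
def pull (φ : Fin n → Fin t ⊕ Bool) (x : Fin t → Bool) : Fin n → Bool :=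
  fun v => Sum.elim x id (φ v)

lemma Sub_label (C : Circuit n ι G) (φ : Fin n → Fin t ⊕ Bool) (x : Fin t → Bool) (i : ι) :
    Sum.elim x id ((subst C φ).label i) = Sum.elim (pull φ x) id (C.label i) := by
  show Sum.elim x id (Sum.elim φ Sum.inr (C.label i)) = _
  cases C.label i <;> rfl

lemma Sub_symm (C : Circuit n ι G) (φ : Fin n → Fin t ⊕ Bool) (σ : Equiv.Perm (Fin t))
    (h : C.Lifts φ σ) : (subst C φ).IsSymmetry σ := by
  obtain ⟨ρ, ⟨σ', τ, h1, h2, h3⟩, h4⟩ := h
  refine ⟨σ', τ, fun i => ?_, h2, h3⟩
  show Sum.elim φ Sum.inr (C.label (σ' i)) = Sum.map σ id (Sum.elim φ Sum.inr (C.label i))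
  rw [h1 i]
  cases C.label i with
  | inl v => exact h4 v
  | inr c => rfl

lemma Sub_card (C : Circuit n ι G) (φ : Fin n → Fin t ⊕ Bool) :
    Nat.card {σ : Equiv.Perm (Fin t) // C.Lifts φ σ} ≤
      Nat.card {σ : Equiv.Perm (Fin t) // (subst C φ).IsSymmetry σ} := by
  refine Nat.card_le_card_of_injective (fun σ => ⟨σ.1, Sub_symm C φ σ.1 σ.2⟩) ?_
  intro a b hab
  have := congrArg Subtype.val hab
  exact Subtype.ext this

lemma Sub_ones (φ : Fin n → Fin t ⊕ Bool) (b j : ℕ) (hφ : Uniform φ b j) (x : Fin t → Bool) :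
    (univ.filter fun v => pull φ x v = true).card =
      b * (univ.filter fun i => x i = true).card + j := by
  classical
  have h1 : (univ.filter fun v => pull φ x v = true) =
      ((univ.filter fun i => x i = true).biUnion fun i => univ.filter fun v => φ v = Sum.inl i) ∪
        univ.filter fun v => φ v = Sum.inr true := by
    ext v
    simp only [mem_filter, mem_univ, true_and, mem_union, mem_biUnion, pull]
    cases h : φ v with
    | inl i => simp
    | inr c => cases c <;> simp
  rw [h1, card_union_of_disjoint, card_biUnion, hφ.2]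
  · congr 1
    rw [sum_congr rfl fun i _ => hφ.1 i, sum_const, smul_eq_mul, mul_comm]
  · intro i _ k _ hik
    simp only [Function.onFun]
    rw [disjoint_left]
    intro v hv hw
    simp only [mem_filter, mem_univ, true_and] at hv hw
    rw [hv] at hw
    exact hik (Sum.inl_injective hw)
  · rw [disjoint_left]
    intro v hv hw
    simp only [mem_filter, mem_univ, true_and, mem_biUnion] at hv hw
    obtain ⟨i, _, hi⟩ := hv
    rw [hi] at hw
    exact absurd hw (by simp)

variable [Fintype ι] [Fintype G]

lemma Sub_count (C : Circuit n ι G) (φ : Fin n → Fin t ⊕ Bool) (x : Fin t → Bool) (v : G → Bool)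
    (g : G) : (subst C φ).count x v g = C.count (pull φ x) v g := by
  refine sum_congr rfl fun a _ => ?_
  have h : Sum.elim (fun i => Sum.elim x id ((subst C φ).label i)) v a =
      Sum.elim (fun i => Sum.elim (pull φ x) id (C.label i)) v a := by
    cases a with
    | inl i => exact Sub_label C φ x i
    | inr g => rfl
  rw [h]
  rfl

lemma Sub_run (C : Circuit n ι G) (φ : Fin n → Fin t ⊕ Bool) (x : Fin t → Bool) (v : G → Bool) :
    (subst C φ).IsRun x v ↔ C.IsRun (pull φ x) v := by
  refine forall_congr' fun g => ?_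
  rw [Sub_count]
  rfl

lemma Sub_modular (C : Circuit n ι G) (φ : Fin n → Fin t ⊕ Bool) (m T : ℕ)
    (h : C.Modular m T) : (subst C φ).Modular m T := h

lemma Sub_computes (C : Circuit n ι G) (φ : Fin n → Fin t ⊕ Bool) (b j : ℕ)
    (hφ : Uniform φ b j) (g : G) (F : ℕ → Prop) (h : C.Computes g F) :
    (subst C φ).Computes g fun w => F (b * w + j) := by
  intro x
  obtain ⟨v, h1, h2⟩ := h (pull φ x)
  refine ⟨v, (Sub_run C φ x v).2 h1, ?_⟩
  rw [h2, Sub_ones φ b j hφ x]

end Pool.Agent.SymSub
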