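import Pool.Agent.SymSub.Sub
import Pool.Agent.RS.Circuit

/-!
# The upper circuit after a substitution
-/

set_option autoImplicit false

namespace Pool.Agent.SymSub

open Pool.Agent Pool.Agent.SymCirc Finset

variable {n t S : ℕ} {G : Type} [Fintype G]

/-- The number of wires into `g` from variables that have been replaced by `c`. -/
def cst (U : RS.Circuit (Fin n ⊕ G) S) (φ : Fin n → Fin t ⊕ Bool) (c : Bool) (g : Fin S) : ℕ :=
  ∑ v ∈ univ.filter fun v => φ v = Sum.inr c, U.vw g (Sum.inl v)

/-- The kind of a gate after the substitution. -/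
noncomputable def knd (p : ℕ) (U : RS.Circuit (Fin n ⊕ G) S) (φ : Fin n → Fin t ⊕ Bool)
    (g : Fin S) : RS.Kind :=
  match U.kind g with
  | RS.Kind.nor => if cst U φ true g = 0 then RS.Kind.nor else RS.Kind.mod fun _ => false
  | RS.Kind.and => if cst U φ false g = 0 then RS.Kind.and else RS.Kind.mod fun _ => false
  | RS.Kind.or => if cst U φ true g = 0 then RS.Kind.or else RS.Kind.mod fun _ => true
  | RS.Kind.mod A => RS.Kind.mod fun r => A ((r + cst U φ true g) % p)

/-- The upper circuit after the substitution. -/
noncomputable def top (p : ℕ) (U : RS.Circuit (Fin n ⊕ G) S) (φ : Fin n → Fin t ⊕ Bool) :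
    RS.Circuit (Fin t ⊕ G) S where
  kind := knd p U φ
  vw g := Sum.elim (fun i => ∑ v ∈ univ.filter fun v => φ v = Sum.inl i, U.vw g (Sum.inl v))
    fun h => U.vw g (Sum.inr h)
  gw := U.gw
  level := U.level
  level_lt := U.level_lt
  out := U.out

lemma Top_split (φ : Fin n → Fin t ⊕ Bool) (f : Fin n → ℕ) (x : Fin t → Bool) :
    (∑ v, if pull φ x v = true then f v else 0) =
      (∑ i, if x i = true then (∑ v ∈ univ.filter fun v => φ v = Sum.inl i, f v) else 0) +
        ∑ v ∈ univ.filter fun v => φ v = Sum.inr true, f v := by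
  classical
  have h1 : ∀ v, (if pull φ x v = true then f v else 0) =
      (∑ i, if x i = true then (if φ v = Sum.inl i then f v else 0) else 0) +
        if φ v = Sum.inr true then f v else 0 := by
    intro v
    unfold pull
    cases h : φ v with
    | inl i =>
      rw [sum_eq_single i]
      · simp
      · intro k _ hk
        have : (Sum.inl i : Fin t ⊕ Bool) ≠ Sum.inl k := fun e => hk (Sum.inl_injective e).symm
        simp [this]
      · simp
    | inr c => cases c <;> simp
  rw [sum_congr rfl fun v _ => h1 v, sum_add_distrib, sum_comm]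
  congr 1
  · refine sum_congr rfl fun i _ => ?_
    by_cases hx : x i = true
    · simp only [hx, if_true]
      rw [sum_filter]
    · simp [hx]
  · rw [sum_filter]

lemma Top_true (p : ℕ) (U : RS.Circuit (Fin n ⊕ G) S) (φ : Fin n → Fin t ⊕ Bool)
    (x : Fin t → Bool) (v : G → Bool) (val : Fin S → Bool) (g : Fin S) :
    U.trueInputs (Sum.elim (pull φ x) v) val g =
      (top p U φ).trueInputs (Sum.elim x v) val g + cst U φ true g := by
  unfold RS.Circuit.trueInputs
  rw [Fintype.sum_sum_type, Fintype.sum_sum_type]
  have h1 := Top_split φ (fun w => U.vw g (Sum.inl w)) x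
  have h2 : (∑ w, if Sum.elim (pull φ x) v (Sum.inl w) = true then U.vw g (Sum.inl w) else 0) =
      (∑ i, if Sum.elim x v (Sum.inl i) = true then (top p U φ).vw g (Sum.inl i) else 0) +
        cst U φ true g := h1
  rw [h2]
  have h3 : (∑ w, if Sum.elim (pull φ x) v (Sum.inr w) = true then U.vw g (Sum.inr w) else 0) =
      ∑ w, if Sum.elim x v (Sum.inr w) = true then (top p U φ).vw g (Sum.inr w) else 0 := rfl
  rw [h3]
  have h4 : (∑ h, if val h = true then U.gw g h else 0) =
      ∑ h, if val h = true then (top p U φ).gw g h else 0 := rfl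
  rw [h4]
  ring

lemma Top_inputs (p : ℕ) (U : RS.Circuit (Fin n ⊕ G) S) (φ : Fin n → Fin t ⊕ Bool)
    (g : Fin S) :
    U.inputs g = (top p U φ).inputs g + cst U φ true g + cst U φ false g := by
  classical
  unfold RS.Circuit.inputs
  rw [Fintype.sum_sum_type, Fintype.sum_sum_type]
  have h1 : ∀ f : Fin n → ℕ, ∑ v, f v =
      (∑ i, ∑ v ∈ univ.filter fun v => φ v = Sum.inl i, f v) +
        (∑ v ∈ univ.filter fun v => φ v = Sum.inr true, f v) +
        ∑ v ∈ univ.filter fun v => φ v = Sum.inr false, f v := by
    intro f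
    have h2 : ∀ v, f v = (∑ i, if φ v = Sum.inl i then f v else 0) +
        (if φ v = Sum.inr true then f v else 0) + if φ v = Sum.inr false then f v else 0 := by
      intro v
      cases h : φ v with
      | inl i =>
        rw [sum_eq_single i]
        · simp
        · intro k _ hk
          have : (Sum.inl i : Fin t ⊕ Bool) ≠ Sum.inl k := fun e => hk (Sum.inl_injective e).symm
          simp [this]
        · simp
      | inr c => cases c <;> simp
    conv_lhs => rw [sum_congr rfl fun v _ => h2 v]
    rw [sum_add_distrib, sum_add_distrib, sum_comm]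
    simp only [sum_filter]
  have h3 : (∑ w, U.vw g (Sum.inl w)) =
      (∑ i, (top p U φ).vw g (Sum.inl i)) + cst U φ true g + cst U φ false g :=
    h1 fun w => U.vw g (Sum.inl w)
  rw [h3]
  have h4 : (∑ w, U.vw g (Sum.inr w)) = ∑ w, (top p U φ).vw g (Sum.inr w) := rfl
  have h5 : (∑ h, U.gw g h) = ∑ h, (top p U φ).gw g h := rfl
  rw [h4, h5]
  ring

lemma Top_le (U : RS.Circuit (Fin n ⊕ G) S) (x : Fin n ⊕ G → Bool)
    (val : Fin S → Bool) (g : Fin S) : U.trueInputs x val g ≤ U.inputs g := by
  unfold RS.Circuit.trueInputs RS.Circuit.inputs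
  refine Nat.add_le_add (sum_le_sum fun v _ => ?_) (sum_le_sum fun h _ => ?_) <;>
    split_ifs <;> simp

lemma Top_fires (p : ℕ) (U : RS.Circuit (Fin n ⊕ G) S) (φ : Fin n → Fin t ⊕ Bool)
    (x : Fin t → Bool) (v : G → Bool) (val : Fin S → Bool) (g : Fin S) :
    (top p U φ).Fires p (Sum.elim x v) val g ↔ U.Fires p (Sum.elim (pull φ x) v) val g := by
  have h1 := Top_true p U φ x v val g
  have h2 := Top_inputs p U φ g
  have h3 := Top_le (top p U φ) (Sum.elim x v) val g
  have hk : (top p U φ).kind g = knd p U φ g := rfl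
  unfold RS.Circuit.Fires
  rw [hk]
  unfold knd
  cases h : U.kind g with
  | nor =>
    by_cases hc : cst U φ true g = 0
    · simp only [hc, if_true]
      rw [h1, hc, add_zero]
    · simp only [hc, if_false]
      constructor
      · intro h; exact absurd h (by simp)
      · intro h; omega
  | and =>
    by_cases hc : cst U φ false g = 0
    · simp only [hc, if_true]
      rw [h1, h2, hc]
      constructor <;> intro h <;> omega
    · simp only [hc, if_false]
      constructor
      · intro h; exact absurd h (by simp)
      · intro h; omega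
  | or =>
    by_cases hc : cst U φ true g = 0
    · simp only [hc, if_true]
      rw [h1, hc, add_zero]
    · simp only [hc, if_false]
      constructor
      · intro _; omega
      · intro _; trivial
  | mod A =>
    simp only
    rw [h1, Nat.mod_add_mod]

lemma Top_accepts (p : ℕ) (U : RS.Circuit (Fin n ⊕ G) S) (φ : Fin n → Fin t ⊕ Bool)
    (x : Fin t → Bool) (v : G → Bool) :
    (top p U φ).Accepts p (Sum.elim x v) ↔ U.Accepts p (Sum.elim (pull φ x) v) := by
  unfold RS.Circuit.Accepts RS.Circuit.IsRun
  refine exists_congr fun val => and_congr (forall_congr' fun g => ?_) Iff.rfl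
  rw [Top_fires]

end Pool.Agent.SymSub
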